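import Pool.Agent.Helper15.RA.GoalsK

/-!
# Project RA (MP_cc6379_al): packet RA-V3 (the vertex data from `GoodSys`)
-/

set_option autoImplicit false

open LaurentPolynomial

noncomputable section

namespace Pool.Agent.Helper33.RA

open Pool.Agent.Helper15.RA

section single

variable {I W H : Type} [Group W] [Ring H] [Algebra ℤ[T;T⁻¹] H] {M : CoxeterMatrix I}
  {cs : CoxeterSystem M W} {L : W → ℕ}

/-- `h x y` is the vector of the coordinates of `c_x c_y`. -/
theorem isH_repr {D : Hecke cs L H} {h : W → W → W →₀ ℤ[T;T⁻¹]} (hh : D.IsH h)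
    (b : Module.Basis W ℤ[T;T⁻¹] H) (hb : ∀ w, b w = D.c w) (x y : W) :
    b.repr (D.c x * D.c y) = h x y := by
  rw [hh x y]
  have h1 : ((h x y).sum fun z p => p • D.c z) = Finsupp.linearCombination _ b (h x y) := by
    rw [Finsupp.linearCombination_apply]
    simp only [hb]
  rw [h1, Module.Basis.repr_linearCombination]

/-- The leading coefficient of `c_s c_(g')`. -/
theorem h_top (hH1 : H_1) (hH2 : H_2) (hH3 : H_3) (hL : IsWeight cs L) {D : Hecke cs L H}
    {h : W → W → W →₀ ℤ[T;T⁻¹]} (hh : D.IsH h) (i : I) (g' : W)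
    (hl : cs.length (cs.simple i * g') = cs.length g' + 1) :
    h (cs.simple i) g' (cs.simple i * g') = 1 := by
  classical
  obtain ⟨⟨b, hb, hb1, hb2⟩, -, -, -, -⟩ := hH3 I W H M cs L hL D
  obtain ⟨-, -, -, c1, c2, -, -, -, cs1, -⟩ := hH2 I W H M cs L hL D
  obtain ⟨-, -, -, -, -, t6, -, -⟩ := hH1 I W H M cs L D.toHecke1.toHecke0
  set g := cs.simple i * g' with hg
  have hTT : D.t (cs.simple i) * D.t g' = D.t g := by
    apply D.mul
    rw [← hg, hl, cs.length_simple, add_comm]
  -- the `T`-coordinates of the product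
  have key : ∀ z, (D.t.repr (D.c (cs.simple i) * D.c g') -
      Finsupp.single g (1 : ℤ[T;T⁻¹]) : W →₀ ℤ[T;T⁻¹]) z ≠ 0 →
      cs.length z < cs.length g := by
    intro z hz
    by_contra hlt
    apply hz
    have e1 : D.c g' = D.t g' + (D.c g' - D.t g') := by abel
    have e2 : D.c (cs.simple i) * D.c g' = D.t g + ((T (-(L (cs.simple i) : ℤ)) : ℤ[T;T⁻¹]) • D.t g' +
        (D.t (cs.simple i) * (D.c g' - D.t g') +
          (T (-(L (cs.simple i) : ℤ)) : ℤ[T;T⁻¹]) • (D.c g' - D.t g'))) := by
      rw [cs1 i]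
      conv_lhs => rw [e1]
      rw [add_mul, mul_add, mul_add, hTT, smul_mul_assoc, one_mul, smul_mul_assoc, one_mul]
      abel
    have hz1 : D.t.repr (D.t g') z = 0 := by
      rw [D.t.repr_self, Finsupp.single_apply, if_neg]
      rintro rfl
      omega
    have hz2 : D.t.repr (D.c g' - D.t g') z = 0 := by
      rw [map_sub, Finsupp.sub_apply, hz1, sub_zero]
      by_contra h1
      rcases c2 g' z h1 with h2 | h2
      · rw [h2] at hlt
        omega
      · omega
    have hz3 : D.t.repr (D.t (cs.simple i) * (D.c g' - D.t g')) z = 0 := by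
      have e3 : D.c g' - D.t g' = (D.t.repr (D.c g' - D.t g')).sum fun y p => p • D.t y := by
        have := D.t.linearCombination_repr (D.c g' - D.t g')
        rw [Finsupp.linearCombination_apply] at this
        exact this.symm
      rw [e3, Finsupp.sum, Finset.mul_sum, map_sum, Finsupp.finsetSum_apply]
      refine Finset.sum_eq_zero fun y hy => ?_
      rw [mul_smul_comm, map_smul, Finsupp.smul_apply, smul_eq_mul]
      have hy1 := Finsupp.mem_support_iff.1 hy
      have hy2 : cs.length y < cs.length g' := by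
        have h3 : y ≠ g' := by
          rintro rfl
          apply hy1
          rw [map_sub, Finsupp.sub_apply, c1, D.t.repr_self, Finsupp.single_eq_same, sub_self]
        have h4 : D.t.repr (D.c g') y ≠ 0 := by
          intro h5
          apply hy1
          rw [map_sub, Finsupp.sub_apply, h5, D.t.repr_self, Finsupp.single_apply,
            if_neg (Ne.symm h3), sub_zero]
        exact (c2 g' y h4).resolve_left h3
      have hy3 : D.t.repr (D.t (cs.simple i) * D.t y) z = 0 := by
        by_contra h5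
        have h6 := t6 _ _ _ h5
        rw [cs.length_simple] at h6
        omega
      rw [hy3, mul_zero]
    rw [e2]
    have hz4 : (D.t.repr (D.t g) - Finsupp.single g (1 : ℤ[T;T⁻¹]) : W →₀ ℤ[T;T⁻¹]) = 0 := by
      rw [D.t.repr_self, sub_self]
    rw [map_add, add_sub_right_comm, hz4, zero_add, map_add, map_add, map_smul, map_smul,
      Finsupp.add_apply, Finsupp.add_apply, Finsupp.smul_apply, Finsupp.smul_apply, hz1, hz2, hz3,
      smul_zero, add_zero, add_zero]
  have hcoord : b.repr (D.c (cs.simple i) * D.c g') g = 1 := by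
    have e4 : D.c (cs.simple i) * D.c g' = D.t g +
        ((D.t.repr (D.c (cs.simple i) * D.c g') -
          Finsupp.single g (1 : ℤ[T;T⁻¹]) : W →₀ ℤ[T;T⁻¹]).sum fun y p => p • D.t y) := by
      have h1 := D.t.linearCombination_repr (D.c (cs.simple i) * D.c g')
      have h2 : Finsupp.linearCombination ℤ[T;T⁻¹] D.t
          (D.t.repr (D.c (cs.simple i) * D.c g') - Finsupp.single g (1 : ℤ[T;T⁻¹])) =
          D.c (cs.simple i) * D.c g' - D.t g := by
        rw [map_sub, h1, Finsupp.linearCombination_single, one_smul]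
      rw [Finsupp.linearCombination_apply] at h2
      rw [h2]
      abel
    rw [e4, map_add, Finsupp.add_apply, hb1, Finsupp.sum, map_sum, Finsupp.finsetSum_apply]
    rw [Finset.sum_eq_zero, add_zero]
    intro y hy
    have hy1 := key y (Finsupp.mem_support_iff.1 hy)
    rw [map_smul, Finsupp.smul_apply, smul_eq_mul]
    have hne : g ≠ y := by
      rintro rfl
      omega
    have hy2 : b.repr (D.t y) g = 0 := by
      by_contra h5
      have h6 := (hb2 y g hne).2 h5
      omega
    rw [hy2, mul_zero]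
  rw [isH_repr hh b hb] at hcoord
  exact hcoord

theorem h_sss (hH2 : H_2) (hH3 : H_3) (hL : IsWeight cs L) {D : Hecke cs L H}
    {h : W → W → W →₀ ℤ[T;T⁻¹]} (hh : D.IsH h) (i : I) :
    h (cs.simple i) (cs.simple i) (cs.simple i) = dl (L (cs.simple i)) := by
  classical
  obtain ⟨⟨b, hb, hb1, hb2⟩, -, -, -, -⟩ := hH3 I W H M cs L hL D
  obtain ⟨-, -, -, -, -, -, -, -, -, c9⟩ := hH2 I W H M cs L hL D
  have h1 := isH_repr hh b hb (cs.simple i) (cs.simple i)
  rw [← h1, c9 i, ← hb, map_smul, Finsupp.smul_apply, b.repr_self, Finsupp.single_eq_same,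
    smul_eq_mul, mul_one]

theorem simple_ne_one' (cs : CoxeterSystem M W) (i : I) : cs.simple i ≠ 1 := by
  intro h
  have h1 := cs.length_simple i
  rw [h, cs.length_one] at h1
  exact absurd h1 (by decide)

theorem dl_coeff {n : ℕ} (hn : 0 < n) : (dl n).coeff (n : ℤ) = 1 := by
  unfold dl
  rw [AddMonoidAlgebra.coeff_add, Finsupp.add_apply, T_apply, T_apply, if_pos rfl, if_neg (by omega),
    add_zero]

/-- `a > 0` outside `1`. -/
theorem a_pos (hH1 : H_1) (hH2 : H_2) (hH3 : H_3) (hL : IsWeight cs L) {D : Hecke cs L H}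
    {h : W → W → W →₀ ℤ[T;T⁻¹]} {a : W → ℕ} (hg : Good D h a) (g : W) (hg1 : g ≠ 1) : 0 < a g := by
  obtain ⟨i, hi⟩ := cs.exists_leftDescent_of_ne_one hg1
  have hi' : cs.length (cs.simple i * g) + 1 = cs.length g := cs.isLeftDescent_iff.1 hi
  have e : cs.simple i * (cs.simple i * g) = g := by simp
  have h1 := h_top hH1 hH2 hH3 hL hg.isH i (cs.simple i * g) (by rw [e]; omega)
  rw [e] at h1
  have h2 := (hg.p4 (cs.simple i) (cs.simple i * g) g (by rw [h1]; exact one_ne_zero)).1
  have hpos := hL.pos _ (simple_ne_one' cs i)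
  have h3 : L (cs.simple i) ≤ a (cs.simple i) := by
    by_contra hlt
    have h4 := (hg.isA (cs.simple i)).1 (cs.simple i) (cs.simple i) (L (cs.simple i) : ℤ) (by omega)
    rw [h_sss hH2 hH3 hL hg.isH i, dl_coeff hpos] at h4
    exact one_ne_zero h4
  omega

theorem a_one (hH2 : H_2) (hL : IsWeight cs L) {D : Hecke cs L H}
    {h : W → W → W →₀ ℤ[T;T⁻¹]} {a : W → ℕ} (hg : Good D h a) : a 1 = 0 := by
  obtain ⟨-, -, -, c1, -⟩ := hH2 I W H M cs L hL D
  by_contra hne
  have h1 := hg.p1 1 0 (by omega)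
  rw [c1 1, ← T_zero, T_apply, if_pos rfl] at h1
  exact one_ne_zero h1

end single

/-- **RA-V3**. -/
theorem h_v3 (hH1 : H_1) (hH2 : H_2) (hH3 : H_3) (hNI : N_I) (hV2 : V_2) : V_3 := by
  classical
  intro I V W H _ _ _ M cs L hL π Γ hΓ D h hh v hG
  obtain ⟨Hv, _, _, Dv, j, hj, jt, jc⟩ := hV2 I V W H M cs L hL π Γ hΓ D v
  obtain ⟨n1, n2, n3⟩ := hNI I V W M cs π Γ hΓ v
  have hLv := n3 L hL
  obtain ⟨⟨N, hN⟩, hv, a, good⟩ := hG Hv Dv
  obtain ⟨⟨b, hb, -, -⟩, -, -, -, -⟩ := hH3 I W H M cs L hL D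
  obtain ⟨-, -, -, hbd, -⟩ := hH3 _ _ Hv _ (sub M π v).toCoxeterSystem _ hLv Dv
  have hbd' := hbd hv N good.isH hN
  have hmap : ∀ g g', h (iota cs π v g) (iota cs π v g') = (hv g g').mapDomain (iota cs π v) := by
    intro g g'
    rw [← isH_repr hh b hb, ← jc, ← jc, ← map_mul, good.isH g g']
    rw [Finsupp.sum, map_sum]
    have h1 : ∑ x ∈ (hv g g').support, j ((hv g g') x • Dv.c x) =
        Finsupp.linearCombination ℤ[T;T⁻¹] b ((hv g g').mapDomain (iota cs π v)) := by
      rw [Finsupp.linearCombination_mapDomain, Finsupp.linearCombination_apply, Finsupp.sum]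
      refine Finset.sum_congr rfl fun x _ => ?_
      rw [map_smul, jc, Function.comp_apply, hb]
    rw [h1, Module.Basis.repr_linearCombination]
  have hval : ∀ g g' l, h (iota cs π v g) (iota cs π v g') (iota cs π v l) = hv g g' l := by
    intro g g' l
    rw [hmap, Finsupp.mapDomain_apply n2]
  have htm : ∀ Z : Hv, D.t.repr (j Z) = (Dv.t.repr Z).mapDomain (iota cs π v) := by
    intro Z
    have h1 : j Z = Finsupp.linearCombination ℤ[T;T⁻¹] D.t
        ((Dv.t.repr Z).mapDomain (iota cs π v)) := by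
      rw [Finsupp.linearCombination_mapDomain, Finsupp.linearCombination_apply]
      conv_lhs => rw [← Dv.t.linearCombination_repr Z, Finsupp.linearCombination_apply]
      rw [Finsupp.sum, map_sum, Finsupp.sum]
      refine Finset.sum_congr rfl fun x _ => ?_
      rw [map_smul, jt, Function.comp_apply]
    rw [h1, Module.Basis.repr_linearCombination]
  refine ⟨a, N, a_one hH2 hLv good, a_pos hH1 hH2 hH3 hLv good, ?_, ?_, ?_, ?_, ?_, ?_, ?_⟩
  · intro g
    by_contra hlt
    obtain ⟨x, y, hxy⟩ := (good.isA g).2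
    exact hxy ((hbd' x y g).mono (by omega))
  · intro g g' k
    rw [← jt, ← jt, ← map_mul, htm]
    by_cases hk : k ∈ Set.range (iota cs π v)
    · obtain ⟨l, rfl⟩ := hk
      rw [Finsupp.mapDomain_apply n2]
      exact hN g g' l
    · rw [Finsupp.mapDomain_of_notMem_range _ _ hk]
      exact DegLE.zero _
  · intro g
    have h1 := good.p1 g
    rw [← jc, htm]
    have h2 : (Dv.t.repr (Dv.c g)).mapDomain (iota cs π v) 1 = Dv.t.repr (Dv.c g) 1 := by
      conv_lhs => rw [← map_one (iota cs π v)]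
      rw [Finsupp.mapDomain_apply n2]
    rw [h2]
    exact h1
  · intro g g' l
    rw [hval]
    exact (good.isA l).1 g g'
  · intro g g' l hne
    rw [hval] at hne
    exact good.p4 g g' l hne
  · intro g g' l hne
    rw [hval] at hne
    exact good.p8 g g' l hne
  · intro l
    obtain ⟨x, y, hxy⟩ := (good.isA l).2
    refine ⟨x, y, ?_⟩
    rw [hval]
    intro h0
    exact hxy (degLE_sub_one ((good.isA l).1 x y) h0)

end Pool.Agent.Helper33.RA
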