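import Pool.Agent.Helper15.RA.GoalsR
import Pool.Agent.Helper33.RA.V3

/-!
# Project RA (MP_cc6379_al): packet RA-RO (Coxeter groups with at most one generator)
-/

set_option autoImplicit false

open LaurentPolynomial

noncomputable section

namespace Pool.Agent.Helper33.RA

open Pool.Agent.Helper15.RA

variable {I W H : Type} [Group W] [Ring H] [Algebra ℤ[T;T⁻¹] H] {M : CoxeterMatrix I}
  {cs : CoxeterSystem M W} {L : W → ℕ}

/-- (B) for finite groups. -/
theorem bdd_of_finite [Finite W] (D : Hecke cs L H) : D.Bdd := by
  classical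
  choose k hk using fun p : W × W × W => exists_degLE (D.t.repr (D.t p.1 * D.t p.2.1) p.2.2)
  obtain ⟨B, hB⟩ := (Set.finite_range k).bddAbove
  refine ⟨B.toNat, fun x y z => (hk (x, y, z)).mono ?_⟩
  have h1 : k (x, y, z) ≤ B := hB ⟨_, rfl⟩
  omega

theorem one_or_simple [Subsingleton I] (cs : CoxeterSystem M W) (w : W) :
    w = 1 ∨ ∃ i, w = cs.simple i := by
  induction w using cs.simple_induction_left with
  | one => exact Or.inl rfl
  | mul_simple_left w i ih =>
    rcases ih with rfl | ⟨j, rfl⟩
    · exact Or.inr ⟨i, mul_one _⟩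
    · left
      rw [Subsingleton.elim j i]
      exact cs.simple_mul_simple_self i

/-- **RA-RO**. -/
theorem h_ro (hH2 : H_2) (hH3 : H_3) : R_O := by
  classical
  intro I W _ _ M cs L hL H _ _ D
  have hW := one_or_simple cs
  have hfin : Finite W := by
    have hI : Finite I := inferInstance
    have h1 : (Set.univ : Set W) ⊆ {1} ∪ Set.range cs.simple := by
      intro w _
      rcases hW w with h | ⟨i, h⟩
      · exact Or.inl h
      · exact Or.inr ⟨i, h.symm⟩
    exact Set.finite_univ_iff.1 (((Set.finite_singleton 1).union (Set.finite_range _)).subset h1)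
  refine ⟨bdd_of_finite D, ?_⟩
  obtain ⟨⟨b, hb, -, -⟩, ⟨h, hh⟩, -, -, -⟩ := hH3 I W H M cs L hL D
  obtain ⟨-, -, -, c1, -, -, -, c0, cs1, -⟩ := hH2 I W H M cs L hL D
  have hL1 : L 1 = 0 := by
    have h1 := hL.add 1 1 (by simp)
    rw [mul_one] at h1
    omega
  have h_one_left : ∀ y, h 1 y = Finsupp.single y 1 := by
    intro y
    rw [← isH_repr hh b hb, c0, one_mul, ← hb, b.repr_self]
  have h_one_right : ∀ x, h x 1 = Finsupp.single x 1 := by
    intro x
    rw [← isH_repr hh b hb, c0, mul_one, ← hb, b.repr_self]
  have hdl : ∀ i, h (cs.simple i) (cs.simple i) = Finsupp.single (cs.simple i) (dl (L (cs.simple i))) := by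
    intro i
    obtain ⟨-, -, -, -, -, -, -, -, -, c9⟩ := hH2 I W H M cs L hL D
    rw [← isH_repr hh b hb, c9 i, ← hb, map_smul, b.repr_self, Finsupp.smul_single, smul_eq_mul, mul_one]
  have hcase : ∀ x y, x = 1 ∨ y = 1 ∨ ∃ i, x = cs.simple i ∧ y = cs.simple i := by
    intro x y
    rcases hW x with hx | ⟨i, hx⟩
    · exact Or.inl hx
    · rcases hW y with hy | ⟨j, hy⟩
      · exact Or.inr (Or.inl hy)
      · exact Or.inr (Or.inr ⟨i, hx, by rw [hy, Subsingleton.elim j i]⟩)
  have hone : ∀ n : ℤ, (1 : ℤ[T;T⁻¹]).coeff n ≠ 0 → n = 0 := by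
    intro n hn
    by_contra h0
    rw [← T_zero, T_apply, if_neg (Ne.symm h0)] at hn
    exact hn rfl
  refine ⟨h, L, hh, ?_, ?_, ?_, ?_⟩
  · intro z
    refine ⟨fun x y => ?_, ?_⟩
    · rcases hcase x y with rfl | rfl | ⟨i, rfl, rfl⟩
      · rw [h_one_left, Finsupp.single_apply]
        split_ifs
        · exact DegLE.one (by omega)
        · exact DegLE.zero _
      · rw [h_one_right, Finsupp.single_apply]
        split_ifs
        · exact DegLE.one (by omega)
        · exact DegLE.zero _
      · rw [hdl, Finsupp.single_apply]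
        split_ifs with hz
        · rw [← hz]
          exact DegLE.dl _
        · exact DegLE.zero _
    · rcases hW z with rfl | ⟨i, rfl⟩
      · refine ⟨1, 1, fun hcon => ?_⟩
        have h1 := hcon 0 (by rw [hL1]; decide)
        rw [h_one_left, Finsupp.single_eq_same, ← T_zero, T_apply, if_pos rfl] at h1
        exact one_ne_zero h1
      · refine ⟨cs.simple i, cs.simple i, fun hcon => ?_⟩
        have h1 := hcon (L (cs.simple i) : ℤ) (by omega)
        rw [hdl, Finsupp.single_eq_same, dl_coeff (hL.pos _ (simple_ne_one' cs i))] at h1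
        exact one_ne_zero h1
  · intro z
    rcases hW z with rfl | ⟨i, rfl⟩
    · rw [c1, hL1]
      exact DegLE.one (by simp)
    · have h1 : D.t.repr 1 1 = 1 := by
        rw [← c0, c1]
      rw [cs1, map_add, Finsupp.add_apply, map_smul, Finsupp.smul_apply, h1, D.t.repr_self,
        Finsupp.single_apply, if_neg (simple_ne_one' cs i), zero_add, smul_eq_mul, mul_one]
      exact DegLE.T_le le_rfl
  · intro x y z hne
    rcases hcase x y with rfl | rfl | ⟨i, rfl, rfl⟩
    · rw [h_one_left, Finsupp.single_apply] at hne
      have hz : y = z := by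
        by_contra h0
        rw [if_neg h0] at hne
        exact hne rfl
      subst hz
      exact ⟨by omega, le_rfl⟩
    · rw [h_one_right, Finsupp.single_apply] at hne
      have hz : x = z := by
        by_contra h0
        rw [if_neg h0] at hne
        exact hne rfl
      subst hz
      exact ⟨le_rfl, by omega⟩
    · rw [hdl, Finsupp.single_apply] at hne
      have hz : cs.simple i = z := by
        by_contra h0
        rw [if_neg h0] at hne
        exact hne rfl
      subst hz
      exact ⟨le_rfl, le_rfl⟩
  · intro x y z hne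
    unfold gam at hne
    rcases hcase x y with rfl | rfl | ⟨i, rfl, rfl⟩
    · rw [h_one_left, Finsupp.single_apply] at hne
      have hz : y = z := by
        by_contra h0
        rw [if_neg h0] at hne
        exact hne rfl
      subst hz
      rw [if_pos rfl] at hne
      have h2 := hone _ hne
      exact ⟨by omega, rfl⟩
    · rw [h_one_right, Finsupp.single_apply] at hne
      have hz : x = z := by
        by_contra h0
        rw [if_neg h0] at hne
        exact hne rfl
      subst hz
      rw [if_pos rfl] at hne
      have h2 := hone _ hne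
      exact ⟨rfl, by omega⟩
    · rw [hdl, Finsupp.single_apply] at hne
      have hz : cs.simple i = z := by
        by_contra h0
        rw [if_neg h0] at hne
        exact hne rfl
      subst hz
      exact ⟨rfl, rfl⟩

end Pool.Agent.Helper33.RA
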