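import Mathlib
import Pool.Agent.Helper15.RA.GoalsR

/-!
# Project RA (MP_cc6379_al): packet RA-XE (the exchange condition)
-/

set_option autoImplicit false

noncomputable section

namespace Pool.Agent.Helper33.RA

open Pool.Agent.Helper15.RA

section grp

variable {W : Type} [Group W]

theorem conj_iff (P t x : W) : P * t * P⁻¹ = x ↔ t = P⁻¹ * x * P := by
  constructor <;> rintro rfl <;> group

theorem inv_iff {b : W} (hb : b * b = 1) (x a : W) : b * x * b = a ↔ x = b * a * b := by
  have hbb : ∀ y : W, b * (b * y) = y := fun y => by rw [← mul_assoc, hb, one_mul]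
  constructor <;> rintro rfl <;> simp [mul_assoc, hbb, hb]

theorem pow_inv_mul {a b : W} (ha : a * a = 1) (hb : b * b = 1) (m : ℕ) :
    ((a * b) ^ m)⁻¹ * b = b * (a * b) ^ m := by
  have hbi : b⁻¹ = b := inv_eq_of_mul_eq_one_left hb
  have hai : a⁻¹ = a := inv_eq_of_mul_eq_one_left ha
  have h1 : (b * (a * b) * b⁻¹) ^ m = b * (a * b) ^ m * b⁻¹ := conj_pow
  have h2 : b * (a * b) * b⁻¹ = (a * b)⁻¹ := by
    rw [mul_inv_rev, hbi, hai, mul_assoc, mul_assoc, hb, mul_one]
  rw [h2, inv_pow] at h1
  rw [h1, hbi, mul_assoc, hb, mul_one]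

theorem e_one {a b : W} (ha : a * a = 1) (hb : b * b = 1) (m : ℕ) (t : W) :
    (a * b) ^ m * t * ((a * b) ^ m)⁻¹ = b ↔ t = b * (a * b) ^ (2 * m) := by
  rw [conj_iff, pow_inv_mul ha hb, mul_assoc, ← pow_add, two_mul]

theorem e_two {a b : W} (ha : a * a = 1) (hb : b * b = 1) (m : ℕ) (t : W) :
    b * ((a * b) ^ m * t * ((a * b) ^ m)⁻¹) * b = a ↔ t = b * (a * b) ^ (2 * m + 1) := by
  rw [inv_iff hb, conj_iff]
  have h1 : ((a * b) ^ m)⁻¹ * (b * a * b) * (a * b) ^ m = b * (a * b) ^ (2 * m + 1) := by
    rw [mul_assoc b a b, ← mul_assoc _ b (a * b), pow_inv_mul ha hb, mul_assoc, mul_assoc,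
      ← pow_succ', ← pow_add]
    congr 2
    ring
  rw [h1]

end grp

section

variable {I W : Type} [Group W] {M : CoxeterMatrix I} (cs : CoxeterSystem M W)

open Classical in
/-- The function of the permutation `rho i`. -/
def rhoF (i : I) (p : W × ZMod 2) : W × ZMod 2 :=
  (cs.simple i * p.1 * cs.simple i, p.2 + if p.1 = cs.simple i then 1 else 0)

theorem rhoF_inv (i : I) : Function.Involutive (rhoF cs i) := by
  classical
  rintro ⟨t, e⟩
  have h1 : cs.simple i * t * cs.simple i = cs.simple i ↔ t = cs.simple i := by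
    rw [inv_iff (cs.simple_mul_simple_self i)]
    simp
  simp only [rhoF]
  ext1
  · simp [mul_assoc]
  · simp only [h1]
    rw [add_assoc, CharTwo.add_self_eq_zero, add_zero]

/-- The permutation of `W × ZMod 2` of a simple reflection. -/
def rho (i : I) : Equiv.Perm (W × ZMod 2) := (rhoF_inv cs i).toPerm

open Classical in
theorem rho_apply (i : I) (t : W) (e : ZMod 2) :
    rho cs i (t, e) = (cs.simple i * t * cs.simple i, e + if t = cs.simple i then 1 else 0) := rfl

open Classical in
theorem pow_apply (i j : I) (m : ℕ) (t : W) (e : ZMod 2) :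
    ((rho cs i * rho cs j) ^ m) (t, e) =
      ((cs.simple i * cs.simple j) ^ m * t * ((cs.simple i * cs.simple j) ^ m)⁻¹,
        e + ∑ k ∈ Finset.range (2 * m), if t = cs.simple j * (cs.simple i * cs.simple j) ^ k
          then 1 else 0) := by
  induction m with
  | zero => simp
  | succ m ih =>
    rw [pow_succ', Equiv.Perm.mul_apply, ih, Equiv.Perm.mul_apply, rho_apply, rho_apply]
    ext1
    · simp only
      rw [pow_succ' (cs.simple i * cs.simple j) m]
      simp [mul_assoc]
    · simp only [e_one (cs.simple_mul_simple_self i) (cs.simple_mul_simple_self j),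
        e_two (cs.simple_mul_simple_self i) (cs.simple_mul_simple_self j)]
      rw [show 2 * (m + 1) = 2 * m + 1 + 1 by ring, Finset.sum_range_succ, Finset.sum_range_succ]
      ring

theorem rho_liftable : M.IsLiftable (rho cs) := by
  classical
  intro i j
  apply Equiv.ext
  rintro ⟨t, e⟩
  rw [pow_apply, cs.simple_mul_simple_pow i j, two_mul, Finset.sum_range_add]
  have h1 : ∀ k, (cs.simple i * cs.simple j) ^ (M i j + k) = (cs.simple i * cs.simple j) ^ k := by
    intro k
    rw [pow_add, cs.simple_mul_simple_pow i j, one_mul]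
  simp only [h1]
  rw [CharTwo.add_self_eq_zero]
  simp

/-- The reflection representation on `W × ZMod 2`. -/
def eta : W →* Equiv.Perm (W × ZMod 2) := cs.lift ⟨rho cs, rho_liftable cs⟩

theorem eta_simple (i : I) : eta cs (cs.simple i) = rho cs i :=
  cs.lift_apply_simple (rho_liftable cs) i

theorem eta_apply (w : W) (t : W) : ∃ n : ZMod 2, ∀ e,
    eta cs w (t, e) = (w * t * w⁻¹, e + n) := by
  classical
  obtain ⟨ω, rfl⟩ := cs.wordProd_surjective w
  induction ω with
  | nil => exact ⟨0, fun e => by simp⟩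
  | cons i ω ih =>
    obtain ⟨n, hn⟩ := ih
    refine ⟨n + if cs.wordProd ω * t * (cs.wordProd ω)⁻¹ = cs.simple i then 1 else 0, fun e => ?_⟩
    rw [cs.wordProd_cons, map_mul, Equiv.Perm.mul_apply, hn, eta_simple, rho_apply]
    ext1
    · simp [mul_assoc]
    · simp only
      rw [add_assoc]

/-- The number of occurrences of `t` in the inversion sequence, mod 2. -/
def nn (w t : W) : ZMod 2 := (eta_apply cs w t).choose

theorem nn_spec (w t : W) (e : ZMod 2) : eta cs w (t, e) = (w * t * w⁻¹, e + nn cs w t) :=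
  (eta_apply cs w t).choose_spec e

theorem nn_mul (w w' t : W) : nn cs (w * w') t = nn cs w' t + nn cs w (w' * t * w'⁻¹) := by
  have h1 := nn_spec cs (w * w') t 0
  rw [map_mul, Equiv.Perm.mul_apply, nn_spec, nn_spec] at h1
  have h2 := congrArg Prod.snd h1
  simp only [zero_add] at h2
  exact h2.symm

open Classical in
theorem nn_simple (i : I) (t : W) : nn cs (cs.simple i) t = if t = cs.simple i then 1 else 0 := by
  have h1 := nn_spec cs (cs.simple i) t 0
  rw [eta_simple, rho_apply] at h1
  have h2 := congrArg Prod.snd h1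
  simp only [zero_add] at h2
  exact h2.symm

theorem nn_of_notMem (ω : List I) (t : W) (ht : t ∉ cs.rightInvSeq ω) :
    nn cs (cs.wordProd ω) t = 0 := by
  classical
  induction ω with
  | nil =>
    have h1 := nn_spec cs 1 t 0
    rw [map_one, Equiv.Perm.one_apply] at h1
    have h2 := congrArg Prod.snd h1
    simp only [zero_add] at h2
    rw [cs.wordProd_nil]
    exact h2.symm
  | cons i ω ih =>
    rw [CoxeterSystem.rightInvSeq, List.mem_cons, not_or] at ht
    rw [cs.wordProd_cons, nn_mul, ih ht.2, nn_simple, if_neg, add_zero]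
    intro h
    exact ht.1 ((conj_iff _ _ _).1 h)

/-- If `n(w, t) ≠ 0` then `t` is a right inversion of `w`. -/
theorem inv_of_nn {w t : W} (h : nn cs w t ≠ 0) : cs.length (w * t) < cs.length w := by
  obtain ⟨ω, h1, h2⟩ := cs.exists_isReduced w
  have h3 : t ∈ cs.rightInvSeq ω := by
    by_contra h3
    apply h
    rw [h2]
    exact nn_of_notMem cs ω t h3
  have h4 := (cs.isRightInversion_of_mem_rightInvSeq h1 h3).2
  rw [h2]
  exact h4

theorem nn_of_desc {w : W} {j : I} (h : cs.length (w * cs.simple j) < cs.length w) :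
    nn cs w (cs.simple j) = 1 := by
  by_contra hne
  have h0 : nn cs w (cs.simple j) = 0 := by
    revert hne
    generalize nn cs w (cs.simple j) = x
    revert x
    decide
  have h1 : nn cs (w * cs.simple j) (cs.simple j) ≠ 0 := by
    rw [nn_mul, nn_simple, if_pos rfl]
    have e : cs.simple j * cs.simple j * (cs.simple j)⁻¹ = cs.simple j := by simp
    rw [e, h0]
    decide
  have h2 := inv_of_nn cs h1
  rw [mul_assoc, cs.simple_mul_simple_self, mul_one] at h2
  omega

end

/-- **RA-XE**. -/
theorem h_xe : X_E := by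
  classical
  intro I W _ M cs i j w h1 h2
  have n1 : nn cs w (cs.simple j) = 0 := by
    by_contra hne
    have := inv_of_nn cs hne
    omega
  have n2 := nn_of_desc cs h2
  rw [nn_mul, n1, zero_add, nn_simple] at n2
  have h3 : w * cs.simple j * w⁻¹ = cs.simple i := by
    by_contra hne
    rw [if_neg hne] at n2
    exact absurd n2 (by decide)
  rw [← h3]
  group

end Pool.Agent.Helper33.RA
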